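import Pool.Agent.H6.FU.Fin

/-! MP_f12790_nt: Q1 and its restriction to an interval of frequencies. -/

open Pool.Agent.H6.FU

namespace Pool.Agent.Results.MP_f12790_nt.FrequencyInterval

/-- The two-point theorem of Tao implies `AC`. For every interval `(a, b)` and every `θ` the following are equivalent:
`Q1`; `AC` and `Q1` with the supremum over the frequencies in `(a, b)` only; `AC` and: the density of the `ε`-bad windows with a
frequency at distance `< δ` from `θ` is `o(δ)` (in the limit inferior). -/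
theorem result : (TwoPoint → AC) ∧ ∀ a b θ : ℝ, a < b →
    [Q1,
     AC ∧ Q1On (Set.Ioo a b),
     AC ∧ ∀ ε : ℝ, 0 < ε → ∀ κ : ℝ, 0 < κ → ∃ δ : ℝ, 0 < δ ∧ δ ≤ 1 / 2 ∧
       DensLE (Set.Ioo (θ - δ) (θ + δ)) ε (κ * (2 * δ))].TFAE := by
  refine ⟨TAO_main, fun a b θ hab => ?_⟩
  tfae_have 1 ↔ 2 := Q1_iff_interval a b hab
  tfae_have 1 ↔ 3 := Q1_iff_local θ
  tfae_finish

end Pool.Agent.Results.MP_f12790_nt.FrequencyInterval
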