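import Pool.Agent.H6.FU.Fin

/-! MP_f12790_nt: the logarithmically averaged statement Q1 is equivalent to the statement without logarithms. -/

open Pool.Agent.H6.FU

namespace Pool.Agent.Results.MP_f12790_nt.NoLogAveraging

/-- `A(H,ω,X) ≤ ε H log ω` for all `H₀(ε) ≤ H ≤ ω ≤ X` if and only if
`∑_{X < n ≤ 2X} sup_α |∑_{h ≤ H} λ(n+h) e(hα)| ≤ ε H X` for all `H₀(ε) ≤ H ≤ X`. -/
theorem result : Q1 ↔ Natural := Q1_iff_natural

end Pool.Agent.Results.MP_f12790_nt.NoLogAveraging
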