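import Pool.Agent.H6.FU.Fin2

/-! MP_f12790_nt: Q1 and the plain short sums at one frequency. -/

open Pool.Agent.H6.FU

namespace Pool.Agent.Results.MP_f12790_nt.OneFrequency

/-- `Q1` is equivalent (given `AC`, a consequence of Tao's two-point theorem) to an `o(1/b)` bound for the density of the large
short sums of bounded length `b` at one frequency per scale, and to an `o(b³)` bound for their fourth moment. -/
theorem result : (TwoPoint → AC) ∧ [Q1, AC ∧ PlainS, AC ∧ FourthS].TFAE := ⟨TAO_main, Q1_tfae_plain⟩

end Pool.Agent.Results.MP_f12790_nt.OneFrequency
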